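import Pool.Agent.H15.TauD

/-!
# MP_f722f0_gt: under CH, neither `Split(T,T)` nor `(T choose Γ)` is closed under finite products
-/

set_option autoImplicit false

namespace Pool.Agent.Results.MP_f722f0_gt.NotProductive

open Pool.Agent.H15.Tau

/-- Assume the continuum hypothesis. There are sets of reals `X₁`, `X₂`, both satisfying
`Split(T,T)` and `(T choose Γ)`, such that the product `X₁ × X₂ ⊆ ℝ²` satisfies neither
`Split(T,T)` nor `(T choose Γ)`. -/
theorem result (CH : Cardinal.continuum.{0} = Cardinal.aleph.{0} 1) :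
    ∃ X₁ X₂ : Set ℝ, (SplitTT X₁ ∧ TauGamma X₁) ∧ (SplitTT X₂ ∧ TauGamma X₂) ∧
      ¬ SplitTT (X₁ ×ˢ X₂ : Set (ℝ × ℝ)) ∧ ¬ TauGamma (X₁ ×ˢ X₂ : Set (ℝ × ℝ)) :=
  final CH

end Pool.Agent.Results.MP_f722f0_gt.NotProductive
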